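import Pool.Agent.W438.CY.Stm

/-! Part MAIN of project CY (helper438). -/

set_option autoImplicit false

namespace Pool.Agent.W741.CY

open Function Pool.Agent.W438.CY

theorem I_pos {p : Prop} (h : p) : I p = 1 := by unfold I; exact if_pos h

theorem I_neg {p : Prop} (h : ¬ p) : I p = 0 := by unfold I; exact if_neg h

theorem I_congr {p q : Prop} (h : p ↔ q) : I p = I q := by rw [propext h]

theorem I_and (p q : Prop) : I (p ∧ q) = I p * I q := by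
  by_cases hp : p <;> by_cases hq : q <;> simp [I, hp, hq]

theorem I_abs (p : Prop) : |I p| ≤ 1 := by
  by_cases hp : p <;> simp [I, hp]

theorem sum_I {C : Type} [Fintype C] (A : Prop) (y : C) : ∑ c, I (A ∧ y = c) = I A := by
  classical
  rw [Finset.sum_eq_single y]
  · exact I_congr ⟨fun h => h.1, fun h => ⟨h, rfl⟩⟩
  · intro b _ hb
    exact I_neg fun h => hb h.2.symm
  · intro h
    exact absurd (Finset.mem_univ y) h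

/-- bounded functions -/
def Bdd {α : Type} (F : α → ℝ) : Prop := ∃ K, ∀ p, |F p| ≤ K

theorem bI {α : Type} (P : α → Prop) : Bdd (fun p => I (P p)) := ⟨1, fun _ => I_abs _⟩

theorem bmul {α : Type} {F G : α → ℝ} (hF : Bdd F) (hG : Bdd G) : Bdd (fun p => F p * G p) := by
  obtain ⟨K, hK⟩ := hF
  obtain ⟨L, hL⟩ := hG
  refine ⟨K * L, fun p => ?_⟩
  rw [abs_mul]
  exact mul_le_mul (hK p) (hL p) (abs_nonneg _) ((abs_nonneg _).trans (hK p))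

theorem badd {α : Type} {F G : α → ℝ} (hF : Bdd F) (hG : Bdd G) : Bdd (fun p => F p + G p) := by
  obtain ⟨K, hK⟩ := hF
  obtain ⟨L, hL⟩ := hG
  exact ⟨K + L, fun p => (abs_add_le _ _).trans (add_le_add (hK p) (hL p))⟩

theorem bcmul {α : Type} (a : ℝ) {F : α → ℝ} (hF : Bdd F) : Bdd (fun p => a * F p) :=
  bmul ⟨|a|, fun _ => le_refl _⟩ hF

theorem bsum {α ι : Type} (s : Finset ι) {F : ι → α → ℝ} (hF : ∀ i, Bdd (F i)) :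
    Bdd (fun p => ∑ i ∈ s, F i p) := by
  classical
  induction s using Finset.induction_on with
  | empty => exact ⟨0, fun p => by simp⟩
  | insert a s ha ih =>
    have : (fun p => ∑ i ∈ insert a s, F i p) = fun p => F a p + ∑ i ∈ s, F i p := by
      funext p
      rw [Finset.sum_insert ha]
    rw [this]
    exact badd (hF a) ih

section

variable {m : ℕ} {t : ℝ}

theorem SS_add (hS : S_SUM) (h0 : 0 < t) (h1 : t < 1) {F G : (Fin m → ℕ) × ℕ → ℝ}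
    (hF : Bdd F) (hG : Bdd G) : SS t (fun p => F p + G p) = SS t F + SS t G := by
  unfold SS
  rw [← Summable.tsum_add ((hS m t h0 h1).2 F hF) ((hS m t h0 h1).2 G hG)]
  congr 1
  funext p
  ring

theorem SS_cmul (a : ℝ) (F : (Fin m → ℕ) × ℕ → ℝ) : SS t (fun p => a * F p) = a * SS t F := by
  unfold SS
  rw [← tsum_mul_left]
  congr 1
  funext p
  ring

theorem SS_zero : SS t (fun _ : (Fin m → ℕ) × ℕ => (0 : ℝ)) = 0 := by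
  unfold SS
  simp

theorem SS_sum (hS : S_SUM) (h0 : 0 < t) (h1 : t < 1) {ι : Type} (s : Finset ι)
    {F : ι → (Fin m → ℕ) × ℕ → ℝ} (hF : ∀ i, Bdd (F i)) :
    SS t (fun p => ∑ i ∈ s, F i p) = ∑ i ∈ s, SS t (F i) := by
  classical
  induction s using Finset.induction_on with
  | empty => simp only [Finset.sum_empty]; exact SS_zero
  | insert a s ha ih =>
    have : (fun p => ∑ i ∈ insert a s, F i p) = fun p => F a p + ∑ i ∈ s, F i p := by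
      funext p
      rw [Finset.sum_insert ha]
    rw [this, SS_add hS h0 h1 (hF a) (bsum s hF), ih, Finset.sum_insert ha]

end

section

variable {m : ℕ} {C : Type} (x : Fin m → C) (wa : C → Prop)

noncomputable def fA (p : (Fin m → ℕ) × ℕ) : ℝ := I (Pr x p.1 p.2 ∧ ¬ Bd p.1 p.2 ∧ Kc x wa p.1 p.2)

noncomputable def fAr (p : (Fin m → ℕ) × ℕ) : ℝ :=
  I (Pr x p.1 p.2 ∧ ¬ Bd p.1 p.2 ∧ Kc x wa p.1 p.2 ∧ ∃ l, p.1 l < p.2)

noncomputable def fAre (p : (Fin m → ℕ) × ℕ) : ℝ :=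
  I (Pr x p.1 p.2 ∧ ¬ Bd p.1 p.2 ∧ Kc x wa p.1 p.2 ∧ p.2 = 0)

noncomputable def fZ (c : C) (p : (Fin m → ℕ) × ℕ) : ℝ :=
  I (Pr x p.1 p.2 ∧ ¬ Bd p.1 p.2 ∧ Kc x wa p.1 p.2 ∧ Al x p.1 p.2 c ∧ (p.2 = 0 → ¬ wa c))

noncomputable def fL (j : Fin m) (p : (Fin m → ℕ) × ℕ) : ℝ :=
  I (Pr x p.1 p.2 ∧ ¬ Bd p.1 p.2 ∧ Kc x wa p.1 p.2) *
    I (Lf p.1 p.2 j ∧ p.2 < p.1 j ∧ NewL x p.1 p.2 j ∧ (p.2 = 0 → ¬ wa (x j)))

noncomputable def fR (j : Fin m) (p : (Fin m → ℕ) × ℕ) : ℝ :=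
  I (Pr x p.1 p.2 ∧ ¬ Bd p.1 p.2 ∧ Kc x wa p.1 p.2) *
    I (Rt p.1 p.2 j ∧ p.2 ≤ p.1 j ∧ NewR x p.1 p.2 j ∧ (p.2 = 0 → ¬ wa (x j)))

noncomputable def fC (j : Fin m) (p : (Fin m → ℕ) × ℕ) : ℝ :=
  I (Pr x p.1 p.2 ∧ Bd p.1 p.2 ∧ Kc x wa p.1 p.2) *
    I (Lf p.1 p.2 j ∧ p.1 j = p.2 + 1 ∧ NewL x p.1 p.2 j ∧ (p.2 = 0 → ¬ wa (x j)))

/-- the pointwise count -/
theorem W (hCNT : S_CNT) (hINI : S_INI) [Fintype C] (g : Fin m → ℕ) (β : ℕ)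
    (hP : Pr x g β) (hD : ¬ Bd g β) (hK : Kc x wa g β) :
    ∑ c, I (Al x g β c ∧ (β = 0 → ¬ wa c)) + 1 + I (∃ l, g l < β) + (∑ c, I (wa c)) * I (β = 0)
      + ∑ j, I (Lf g β j ∧ β < g j ∧ NewL x g β j ∧ (β = 0 → ¬ wa (x j)))
      + ∑ j, I (Rt g β j ∧ β ≤ g j ∧ NewR x g β j ∧ (β = 0 → ¬ wa (x j)))
      = (Fintype.card C : ℝ) := by
  have h1 : ∀ c : C, I (Al x g β c ∧ (β = 0 → ¬ wa c)) + I (wa c) * I (β = 0)
      + ∑ j, I ((Lf g β j ∧ NewL x g β j ∧ (β = 0 → ¬ wa (x j))) ∧ x j = c)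
      + ∑ j, I ((Rt g β j ∧ NewR x g β j ∧ (β = 0 → ¬ wa (x j))) ∧ x j = c) = 1 := by
    intro c
    by_cases hw : β = 0 → ¬ wa c
    · have e1 : I (Al x g β c ∧ (β = 0 → ¬ wa c)) = I (Al x g β c) :=
        I_congr ⟨fun h => h.1, fun h => ⟨h, hw⟩⟩
      have e2 : I (wa c) * I (β = 0) = 0 := by
        rw [← I_and]
        exact I_neg fun h => hw h.2 h.1
      have e3 : ∀ j, I ((Lf g β j ∧ NewL x g β j ∧ (β = 0 → ¬ wa (x j))) ∧ x j = c) =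
          I (Lf g β j ∧ NewL x g β j ∧ x j = c) := fun j =>
        I_congr ⟨fun h => ⟨h.1.1, h.1.2.1, h.2⟩, fun h => ⟨⟨h.1, h.2.1, by rw [h.2.2]; exact hw⟩,
          h.2.2⟩⟩
      have e4 : ∀ j, I ((Rt g β j ∧ NewR x g β j ∧ (β = 0 → ¬ wa (x j))) ∧ x j = c) =
          I (Rt g β j ∧ NewR x g β j ∧ x j = c) := fun j =>
        I_congr ⟨fun h => ⟨h.1.1, h.1.2.1, h.2⟩, fun h => ⟨⟨h.1, h.2.1, by rw [h.2.2]; exact hw⟩,
          h.2.2⟩⟩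
      rw [e1, e2, Finset.sum_congr rfl (fun j _ => e3 j), Finset.sum_congr rfl (fun j _ => e4 j),
        add_zero]
      exact hCNT m C x g β c
    · have hw' : β = 0 ∧ wa c := by
        by_contra h
        exact hw fun h1 h2 => h ⟨h1, h2⟩
      have e1 : I (Al x g β c ∧ (β = 0 → ¬ wa c)) = 0 := I_neg fun h => hw h.2
      have e2 : I (wa c) * I (β = 0) = 1 := by
        rw [← I_and]
        exact I_pos ⟨hw'.2, hw'.1⟩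
      have e3 : ∀ j, I ((Lf g β j ∧ NewL x g β j ∧ (β = 0 → ¬ wa (x j))) ∧ x j = c) = 0 :=
        fun j => I_neg fun h => hw (by rw [← h.2]; exact h.1.2.2)
      have e4 : ∀ j, I ((Rt g β j ∧ NewR x g β j ∧ (β = 0 → ¬ wa (x j))) ∧ x j = c) = 0 :=
        fun j => I_neg fun h => hw (by rw [← h.2]; exact h.1.2.2)
      rw [e1, e2, Finset.sum_eq_zero (fun j _ => e3 j), Finset.sum_eq_zero (fun j _ => e4 j)]
      norm_num
  have h2 := Finset.sum_congr rfl (fun c (_ : c ∈ (Finset.univ : Finset C)) => h1 c)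
  rw [Finset.sum_add_distrib, Finset.sum_add_distrib, Finset.sum_add_distrib,
    Finset.sum_comm (s := Finset.univ) (t := Finset.univ)
      (f := fun c j => I ((Lf g β j ∧ NewL x g β j ∧ (β = 0 → ¬ wa (x j))) ∧ x j = c)),
    Finset.sum_comm (s := Finset.univ) (t := Finset.univ)
      (f := fun c j => I ((Rt g β j ∧ NewR x g β j ∧ (β = 0 → ¬ wa (x j))) ∧ x j = c)),
    Finset.sum_congr rfl (fun j _ => sum_I (Lf g β j ∧ NewL x g β j ∧ (β = 0 → ¬ wa (x j))) (x j)),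
    Finset.sum_congr rfl (fun j _ => sum_I (Rt g β j ∧ NewR x g β j ∧ (β = 0 → ¬ wa (x j))) (x j)),
    Finset.sum_const, Finset.card_univ, nsmul_eq_mul, mul_one, ← Finset.sum_mul] at h2
  obtain ⟨i1, i2, i3, i4⟩ := hINI m C x g β
  have h3 : ∑ j, I (Lf g β j ∧ NewL x g β j ∧ (β = 0 → ¬ wa (x j))) =
      ∑ j, I (Lf g β j ∧ β < g j ∧ NewL x g β j ∧ (β = 0 → ¬ wa (x j))) + 1 := by
    rw [I_pos hD] at i1
    rw [← i1, ← Finset.sum_add_distrib]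
    refine Finset.sum_congr rfl fun j _ => ?_
    by_cases hj : g j ≤ β
    · rw [I_neg (p := Lf g β j ∧ β < g j ∧ NewL x g β j ∧ (β = 0 → ¬ wa (x j)))
        (fun h => absurd h.2.1 (not_lt.2 hj)), zero_add]
      refine I_congr ⟨fun h => ⟨h.1, hj⟩, fun h => ⟨h.1, i3 hP j h.1 hj, fun hb => ?_⟩⟩
      exact hK.2 j (by omega)
    · rw [I_neg (p := Lf g β j ∧ g j ≤ β) (fun h => hj h.2), add_zero]
      exact I_congr ⟨fun h => ⟨h.1, not_le.1 hj, h.2⟩, fun h => ⟨h.1, h.2.2⟩⟩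
  have h4 : ∑ j, I (Rt g β j ∧ NewR x g β j ∧ (β = 0 → ¬ wa (x j))) =
      ∑ j, I (Rt g β j ∧ β ≤ g j ∧ NewR x g β j ∧ (β = 0 → ¬ wa (x j))) + I (∃ l, g l < β) := by
    rw [← i2, ← Finset.sum_add_distrib]
    refine Finset.sum_congr rfl fun j _ => ?_
    by_cases hj : g j < β
    · rw [I_neg (p := Rt g β j ∧ β ≤ g j ∧ NewR x g β j ∧ (β = 0 → ¬ wa (x j)))
        (fun h => absurd h.2.1 (not_le.2 hj)), zero_add]
      refine I_congr ⟨fun h => ⟨h.1, hj⟩, fun h => ⟨h.1, i4 hP j h.1 hj, fun hb => ?_⟩⟩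
      omega
    · rw [I_neg (p := Rt g β j ∧ g j < β) (fun h => hj h.2), add_zero]
      exact I_congr ⟨fun h => ⟨h.1, not_lt.1 hj, h.2⟩, fun h => ⟨h.1, h.2.2⟩⟩
  rw [h3, h4] at h2
  linarith

theorem e1 (hCNT : S_CNT) (hINI : S_INI) [Fintype C] (p : (Fin m → ℕ) × ℕ) :
    ∑ c, fZ x wa c p + fA x wa p + fAr x wa p + (∑ c, I (wa c)) * fAre x wa p
      + ∑ j, fL x wa j p + ∑ j, fR x wa j p = (Fintype.card C : ℝ) * fA x wa p := by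
  unfold fZ fA fAr fAre fL fR
  by_cases h : Pr x p.1 p.2 ∧ ¬ Bd p.1 p.2 ∧ Kc x wa p.1 p.2
  · have hw := W x wa hCNT hINI p.1 p.2 h.1 h.2.1 h.2.2
    have a1 : ∀ c, I (Pr x p.1 p.2 ∧ ¬ Bd p.1 p.2 ∧ Kc x wa p.1 p.2 ∧ Al x p.1 p.2 c ∧
        (p.2 = 0 → ¬ wa c)) = I (Al x p.1 p.2 c ∧ (p.2 = 0 → ¬ wa c)) := fun c =>
      I_congr ⟨fun k => k.2.2.2, fun k => ⟨h.1, h.2.1, h.2.2, k⟩⟩
    have a2 : I (Pr x p.1 p.2 ∧ ¬ Bd p.1 p.2 ∧ Kc x wa p.1 p.2 ∧ ∃ l, p.1 l < p.2) =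
        I (∃ l, p.1 l < p.2) := I_congr ⟨fun k => k.2.2.2, fun k => ⟨h.1, h.2.1, h.2.2, k⟩⟩
    have a3 : I (Pr x p.1 p.2 ∧ ¬ Bd p.1 p.2 ∧ Kc x wa p.1 p.2 ∧ p.2 = 0) =
        I (p.2 = 0) := I_congr ⟨fun k => k.2.2.2, fun k => ⟨h.1, h.2.1, h.2.2, k⟩⟩
    rw [Finset.sum_congr rfl (fun c _ => a1 c), a2, a3, I_pos h]
    simp only [one_mul, mul_one]
    exact hw
  · have a1 : ∀ c, I (Pr x p.1 p.2 ∧ ¬ Bd p.1 p.2 ∧ Kc x wa p.1 p.2 ∧ Al x p.1 p.2 c ∧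
        (p.2 = 0 → ¬ wa c)) = 0 := fun c =>
      I_neg fun k => h ⟨k.1, k.2.1, k.2.2.1⟩
    have a2 : I (Pr x p.1 p.2 ∧ ¬ Bd p.1 p.2 ∧ Kc x wa p.1 p.2 ∧ ∃ l, p.1 l < p.2) = 0 :=
      I_neg fun k => h ⟨k.1, k.2.1, k.2.2.1⟩
    have a3 : I (Pr x p.1 p.2 ∧ ¬ Bd p.1 p.2 ∧ Kc x wa p.1 p.2 ∧ p.2 = 0) = 0 :=
      I_neg fun k => h ⟨k.1, k.2.1, k.2.2.1⟩
    rw [Finset.sum_congr rfl (fun c _ => a1 c), a2, a3, I_neg h]
    simp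

theorem e2 (p : (Fin m → ℕ) × ℕ) : fA x wa p = fAr x wa p + fAre x wa p := by
  unfold fA fAr fAre
  by_cases h : Pr x p.1 p.2 ∧ ¬ Bd p.1 p.2 ∧ Kc x wa p.1 p.2
  · rw [I_pos h]
    by_cases hb : p.2 = 0
    · rw [I_neg (p := Pr x p.1 p.2 ∧ ¬ Bd p.1 p.2 ∧ Kc x wa p.1 p.2 ∧ ∃ l, p.1 l < p.2)
        (fun k => by obtain ⟨l, hl⟩ := k.2.2.2; omega), I_pos ⟨h.1, h.2.1, h.2.2, hb⟩, zero_add]
    · have hex : ∃ l, p.1 l < p.2 := by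
        rcases h.2.2.1 with h0 | ⟨l, hl⟩
        · exact absurd h0 hb
        · exact ⟨l, by omega⟩
      rw [I_neg (p := Pr x p.1 p.2 ∧ ¬ Bd p.1 p.2 ∧ Kc x wa p.1 p.2 ∧ p.2 = 0)
        (fun k => hb k.2.2.2),
        I_pos (p := Pr x p.1 p.2 ∧ ¬ Bd p.1 p.2 ∧ Kc x wa p.1 p.2 ∧ ∃ l, p.1 l < p.2)
        ⟨h.1, h.2.1, h.2.2, hex⟩, add_zero]
  · rw [I_neg h, I_neg (p := Pr x p.1 p.2 ∧ ¬ Bd p.1 p.2 ∧ Kc x wa p.1 p.2 ∧ ∃ l, p.1 l < p.2)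
      (fun k => h ⟨k.1, k.2.1, k.2.2.1⟩),
      I_neg (p := Pr x p.1 p.2 ∧ ¬ Bd p.1 p.2 ∧ Kc x wa p.1 p.2 ∧ p.2 = 0)
      (fun k => h ⟨k.1, k.2.1, k.2.2.1⟩), add_zero]

theorem e3 (hLL : S_LL) (hINV : S_INV) (j : Fin m) (p : (Fin m → ℕ) × ℕ) :
    I (p.2 < p.1 j) * I (Pr x (update p.1 j p.2) (p.1 j - 1) ∧
      Kc x wa (update p.1 j p.2) (p.1 j - 1) ∧ Lf (update p.1 j p.2) (p.1 j - 1) j)
      = fL x wa j p + fC x wa j p := by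
  unfold fL fC
  rw [← I_and, ← I_and, ← I_and]
  by_cases hj : p.2 < p.1 j
  · obtain ⟨v1, -, v3, -⟩ := hINV m C x wa p.1 p.2 j
    have v1' := v1 hj
    have v3' := v3 hj
    by_cases hlf : Lf p.1 p.2 j
    · have hll := hLL m C x p.1 p.2 j hlf hj
      rw [hll, v1', v3']
      by_cases hbd : Bd p.1 p.2
      · rw [I_neg (p := (Pr x p.1 p.2 ∧ ¬ Bd p.1 p.2 ∧ Kc x wa p.1 p.2) ∧ Lf p.1 p.2 j ∧
          p.2 < p.1 j ∧ NewL x p.1 p.2 j ∧ (p.2 = 0 → ¬ wa (x j))) (fun k => k.1.2.1 hbd),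
          zero_add]
        refine I_congr ⟨fun k => ?_, fun k => ?_⟩
        · obtain ⟨-, ⟨k1, k2, k3⟩, ⟨k4, k5⟩, k6⟩ := k
          rcases k3 with k3 | k3
          · exact absurd hbd k3
          · exact ⟨⟨k1, hbd, k4⟩, k6, k3, k2, k5⟩
        · obtain ⟨⟨k1, k2, k3⟩, k4, k5, k6, k7⟩ := k
          exact ⟨hj, ⟨k1, k6, Or.inr k5⟩, ⟨k3, k7⟩, k4⟩
      · rw [I_neg (p := (Pr x p.1 p.2 ∧ Bd p.1 p.2 ∧ Kc x wa p.1 p.2) ∧ Lf p.1 p.2 j ∧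
          p.1 j = p.2 + 1 ∧ NewL x p.1 p.2 j ∧ (p.2 = 0 → ¬ wa (x j))) (fun k => hbd k.1.2.1),
          add_zero]
        refine I_congr ⟨fun k => ?_, fun k => ?_⟩
        · obtain ⟨-, ⟨k1, k2, k3⟩, ⟨k4, k5⟩, k6⟩ := k
          exact ⟨⟨k1, hbd, k4⟩, k6, hj, k2, k5⟩
        · obtain ⟨⟨k1, k2, k3⟩, k4, k5, k6, k7⟩ := k
          exact ⟨hj, ⟨k1, k6, Or.inl hbd⟩, ⟨k3, k7⟩, k4⟩
    · rw [I_neg (fun k => hlf (v3'.1 k.2.2.2)), I_neg (fun k => hlf k.2.1),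
        I_neg (fun k => hlf k.2.1), add_zero]
  · rw [I_neg (fun k => hj k.1), I_neg (fun k => hj k.2.2.1),
      I_neg (fun k => hj (by have := k.2.2.1; omega)), add_zero]

theorem e4 (hLR : S_LR) (hINV : S_INV) (j : Fin m) (p : (Fin m → ℕ) × ℕ) :
    I (p.2 ≤ p.1 j) * I (Pr x (update p.1 j p.2) (p.1 j + 1) ∧
      Kc x wa (update p.1 j p.2) (p.1 j + 1) ∧ Rt (update p.1 j p.2) (p.1 j + 1) j)
      = fR x wa j p := by
  unfold fR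
  rw [← I_and, ← I_and]
  by_cases hj : p.2 ≤ p.1 j
  · obtain ⟨-, v2, -, v4⟩ := hINV m C x wa p.1 p.2 j
    have v2' := v2 hj
    have v4' := v4 hj
    by_cases hrt : Rt p.1 p.2 j
    · have hlr := hLR m C x p.1 p.2 j hrt hj
      rw [hlr, v2', v4']
      refine I_congr ⟨fun k => ?_, fun k => ?_⟩
      · obtain ⟨-, ⟨k1, k2, k3⟩, ⟨k4, k5⟩, k6⟩ := k
        exact ⟨⟨k1, k3, k4⟩, k6, hj, k2, k5⟩
      · obtain ⟨⟨k1, k2, k3⟩, k4, k5, k6, k7⟩ := k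
        exact ⟨hj, ⟨k1, k6, k2⟩, ⟨k3, k7⟩, k4⟩
    · rw [I_neg (fun k => hrt (v4'.1 k.2.2.2)), I_neg (fun k => hrt k.2.1)]
  · rw [I_neg (fun k => hj k.1), I_neg (fun k => hj k.2.2.1)]

theorem e3' (hINI : S_INI) (p : (Fin m → ℕ) × ℕ) :
    ∑ j, I (p.1 j ≤ p.2) * I (Pr x p.1 p.2 ∧ Kc x wa p.1 p.2 ∧ Lf p.1 p.2 j) = fA x wa p := by
  unfold fA
  obtain ⟨i1, -, -, -⟩ := hINI m C x p.1 p.2
  have h : I (Pr x p.1 p.2 ∧ ¬ Bd p.1 p.2 ∧ Kc x wa p.1 p.2) =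
      I (Pr x p.1 p.2 ∧ Kc x wa p.1 p.2) * I (¬ Bd p.1 p.2) := by
    rw [← I_and]
    exact I_congr ⟨fun k => ⟨⟨k.1, k.2.2⟩, k.2.1⟩, fun k => ⟨k.1.1, k.2, k.1.2⟩⟩
  rw [h, ← i1, Finset.mul_sum]
  refine Finset.sum_congr rfl fun j _ => ?_
  rw [← I_and, ← I_and]
  exact I_congr ⟨fun k => ⟨⟨k.2.1, k.2.2.1⟩, k.2.2.2, k.1⟩, fun k => ⟨k.2.2, k.1.1, k.1.2, k.2.1⟩⟩

theorem e4' (hINI : S_INI) (p : (Fin m → ℕ) × ℕ) :
    ∑ j, I (p.1 j < p.2) * I (Pr x p.1 p.2 ∧ Kc x wa p.1 p.2 ∧ Rt p.1 p.2 j) = fAr x wa p := by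
  unfold fAr
  obtain ⟨-, i2, -, -⟩ := hINI m C x p.1 p.2
  have h : I (Pr x p.1 p.2 ∧ ¬ Bd p.1 p.2 ∧ Kc x wa p.1 p.2 ∧ ∃ l, p.1 l < p.2) =
      I (Pr x p.1 p.2 ∧ Kc x wa p.1 p.2) * I (∃ l, p.1 l < p.2) := by
    rw [← I_and]
    refine I_congr ⟨fun k => ⟨⟨k.1, k.2.2.1⟩, k.2.2.2⟩, fun k => ⟨k.1.1, fun hb => ?_, k.1.2,
      k.2⟩⟩
    obtain ⟨l, hl⟩ := k.2
    exact absurd (hb l) (by omega)
  rw [h, ← i2, Finset.mul_sum]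
  refine Finset.sum_congr rfl fun j _ => ?_
  rw [← I_and, ← I_and]
  exact I_congr ⟨fun k => ⟨⟨k.2.1, k.2.2.1⟩, k.2.2.2, k.1⟩, fun k => ⟨k.2.2, k.1.1, k.1.2, k.2.1⟩⟩

end

theorem main : S_LL → S_LR → S_CNT → S_INI → S_INV → S_SUM → S_TS → S_MAIN := by
  intro hLL hLR hCNT hINI hINV hSUM hTS m C _ x wa t h0 h1 hq
  have bZ : ∀ c, Bdd (fZ x wa c) := fun c => bI _
  have bA : Bdd (fA x wa) := bI _
  have bAr : Bdd (fAr x wa) := bI _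
  have bAre : Bdd (fAre x wa) := bI _
  have bL : ∀ j, Bdd (fL x wa j) := fun j => bmul (bI _) (bI _)
  have bR : ∀ j, Bdd (fR x wa j) := fun j => bmul (bI _) (bI _)
  have bC : ∀ j, Bdd (fC x wa j) := fun j => bmul (bI _) (bI _)
  have E1 : ∑ c, SS t (fZ x wa c) + SS t (fA x wa) + SS t (fAr x wa)
      + (∑ c, I (wa c)) * SS t (fAre x wa) + ∑ j, SS t (fL x wa j) + ∑ j, SS t (fR x wa j)
      = (Fintype.card C : ℝ) * SS t (fA x wa) := by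
    rw [← SS_cmul, ← SS_cmul, ← SS_sum hSUM h0 h1 Finset.univ bZ,
      ← SS_sum hSUM h0 h1 Finset.univ bL, ← SS_sum hSUM h0 h1 Finset.univ bR,
      ← SS_add hSUM h0 h1 (bsum _ bZ) bA,
      ← SS_add hSUM h0 h1 (badd (bsum _ bZ) bA) bAr,
      ← SS_add hSUM h0 h1 (badd (badd (bsum _ bZ) bA) bAr) (bcmul _ bAre),
      ← SS_add hSUM h0 h1 (badd (badd (badd (bsum _ bZ) bA) bAr) (bcmul _ bAre)) (bsum _ bL),
      ← SS_add hSUM h0 h1 (badd (badd (badd (badd (bsum _ bZ) bA) bAr) (bcmul _ bAre))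
        (bsum _ bL)) (bsum _ bR)]
    congr 1
    funext p
    exact e1 x wa hCNT hINI p
  have E2 : SS t (fA x wa) = SS t (fAr x wa) + SS t (fAre x wa) := by
    rw [← SS_add hSUM h0 h1 bAr bAre]
    congr 1
    funext p
    exact e2 x wa p
  have E3 : ∑ j, SS t (fL x wa j) + ∑ j, SS t (fC x wa j) = t * SS t (fA x wa) := by
    have k1 : ∀ j, SS t (fL x wa j) + SS t (fC x wa j) = t * SS t (fun p : (Fin m → ℕ) × ℕ =>
        I (p.1 j ≤ p.2) * I (Pr x p.1 p.2 ∧ Kc x wa p.1 p.2 ∧ Lf p.1 p.2 j)) := by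
      intro j
      rw [← (hTS m t j (fun p => I (Pr x p.1 p.2 ∧ Kc x wa p.1 p.2 ∧ Lf p.1 p.2 j)) h0 h1).1,
        ← SS_add hSUM h0 h1 (bL j) (bC j)]
      congr 1
      funext p
      exact (e3 x wa hLL hINV j p).symm
    rw [← Finset.sum_add_distrib, Finset.sum_congr rfl (fun j _ => k1 j), ← Finset.mul_sum,
      ← SS_sum hSUM h0 h1 Finset.univ (fun j => bmul (bI _) (bI _))]
    congr 2
    funext p
    exact e3' x wa hINI p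
  have E4 : t * ∑ j, SS t (fR x wa j) = SS t (fAr x wa) := by
    have k1 : ∀ j, t * SS t (fR x wa j) = SS t (fun p : (Fin m → ℕ) × ℕ =>
        I (p.1 j < p.2) * I (Pr x p.1 p.2 ∧ Kc x wa p.1 p.2 ∧ Rt p.1 p.2 j)) := by
      intro j
      rw [← (hTS m t j (fun p => I (Pr x p.1 p.2 ∧ Kc x wa p.1 p.2 ∧ Rt p.1 p.2 j)) h0 h1).2]
      congr 2
      funext p
      exact (e4 x wa hLR hINV j p).symm
    rw [Finset.mul_sum, Finset.sum_congr rfl (fun j _ => k1 j),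
      ← SS_sum hSUM h0 h1 Finset.univ (fun j => bmul (bI _) (bI _))]
    congr 1
    funext p
    exact e4' x wa hINI p
  have E5 : SS t (fun p : (Fin m → ℕ) × ℕ => I (Pr x p.1 p.2 ∧ Bd p.1 p.2 ∧ Kc x wa p.1 p.2) *
      ∑ j, I (Lf p.1 p.2 j ∧ p.1 j = p.2 + 1 ∧ NewL x p.1 p.2 j ∧ (p.2 = 0 → ¬ wa (x j))))
      = ∑ j, SS t (fC x wa j) := by
    rw [← SS_sum hSUM h0 h1 Finset.univ bC]
    congr 1
    funext p
    rw [Finset.mul_sum]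
    rfl
  rw [E5]
  show ∑ c, SS t (fZ x wa c) = (1 + 1 / t - ∑ c, I (wa c)) * SS t (fAre x wa) +
    ∑ j, SS t (fC x wa j)
  have E4' : ∑ j, SS t (fR x wa j) = 1 / t * SS t (fAr x wa) := by
    rw [← E4]
    field_simp
  rw [hq] at E1
  have E3' : ∑ j, SS t (fL x wa j) = t * SS t (fA x wa) - ∑ j, SS t (fC x wa j) := by linarith
  rw [E3', E4', E2] at E1
  linear_combination E1

end Pool.Agent.W741.CY
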